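import Pool.Agent.H705.GB.Stm

/-! # Package LOW: if the first rough level is free then it is the level at the end -/

set_option autoImplicit false

namespace Pool.Agent.H650.GB

open Pool.Agent.H705.GB

/-- package LOW -/
theorem T_LOW (hFLB : P_FLB) (hLNK : P_LNK) : P_LOW := by
  intro z B N T H L K j n c x hG hOk hx hR
  obtain ⟨n', c', hn1, hn2, _, hc2, hc3, hfl, _, hF⟩ :=
    hLNK z B N T H L (Free N) K j n c x hG hOk hx hR
  obtain ⟨_, _, hG3⟩ := hG
  have h3 : fl x N n c = c' := by
    rw [hfl]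
    exact hFLB.2.2.1 x N n' c' (by omega) hF
  rw [h3]
  exact ⟨hc2, hc3, hF⟩

end Pool.Agent.H650.GB
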